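import Mathlib

set_option autoImplicit false

/-!
# The numerical part of the upper bound inequalities
-/

namespace Pool.Agent.J6H34.UBC

/-- The bounding numbers. -/
def cc (N s : ℕ) : ℕ := (N + s - 1).choose s

lemma cc_zero (N : ℕ) : cc N 0 = 1 := Nat.choose_zero_right _

lemma cc_succ (N s : ℕ) : (s + 1) * cc N (s + 1) = (N + s) * cc N s := by
  unfold cc
  rcases Nat.eq_zero_or_pos (N + s) with h | h
  · have h1 : N = 0 := by omega
    have h2 : s = 0 := by omega
    subst h1 h2
    simp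
  · obtain ⟨m, hm⟩ : ∃ m, N + s = m + 1 := ⟨N + s - 1, by omega⟩
    have e1 : N + (s + 1) - 1 = m + 1 := by omega
    have e2 : N + s - 1 = m := by omega
    rw [e1, e2, hm]
    have := Nat.add_one_mul_choose_eq m s
    rw [this]
    ring

/-- A large binomial coefficient forces a large upper index. -/
lemma le_of_choose_le (d m s : ℕ) (hs : s ≤ d) (hs1 : 1 ≤ s) (h : d.choose s ≤ m.choose s) : d ≤ m := by
  by_contra hcon
  rw [not_le] at hcon
  obtain ⟨e, rfl⟩ : ∃ e, d = e + 1 := ⟨d - 1, by omega⟩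
  obtain ⟨t, rfl⟩ : ∃ t, s = t + 1 := ⟨s - 1, by omega⟩
  have h1 : m.choose (t + 1) ≤ e.choose (t + 1) := Nat.choose_le_choose _ (by omega)
  have h2 : (e + 1).choose (t + 1) = e.choose t + e.choose (t + 1) := Nat.choose_succ_succ _ _
  have h3 : 0 < e.choose t := Nat.choose_pos (by omega)
  omega

/-- From the recursion to the inequality. -/
lemma numeric (d N : ℕ) (h z β χ : ℕ → ℤ) (hz : ∀ s, 0 ≤ z s) (hβ : ∀ s, 0 ≤ β s)
    (h0 : h 0 = 1) (hβ0 : β 0 = 0) (hχ0 : χ 0 = 0) (hχ : ∀ s, χ (s + 1) = β (s + 1) - χ s)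
    (hB : ∀ s, s ≤ d → h s = z s + (d.choose s : ℤ) * χ s)
    (hA : ∀ s, s < d → ((s : ℤ) + 1) * h (s + 1) + ((d : ℤ) - s) * h s ≤ ((N : ℤ) + d) * z s) :
    ∀ s, s ≤ d → h s ≤ (cc N s : ℤ) := by
  -- the partial sums of the Betti numbers
  let S : ℕ → ℤ := fun s => ∑ j ∈ Finset.range (s + 1), β j
  have hS0 : S 0 = 0 := by
    show ∑ j ∈ Finset.range 1, β j = 0
    rw [Finset.sum_range_one, hβ0]
  have hSs : ∀ s, S (s + 1) = S s + β (s + 1) := fun s => Finset.sum_range_succ _ _
  have hSn : ∀ s, 0 ≤ S s := fun s => Finset.sum_nonneg fun j _ => hβ j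
  have hχS : ∀ s, -(S s) ≤ χ s ∧ χ s ≤ S s := by
    intro s
    induction s with
    | zero => rw [hS0, hχ0]; simp
    | succ s ih =>
      rw [hχ s, hSs s]
      have := hβ (s + 1)
      constructor <;> linarith [ih.1, ih.2]
  have key : ∀ s, s ≤ d → z s + (d.choose s : ℤ) * S s ≤ (cc N s : ℤ) ∧
      (S s = 0 ∨ d ≤ N + s) := by
    intro s
    induction s with
    | zero =>
      intro _
      have h1 := hB 0 (Nat.zero_le _)
      rw [h0, hχ0, mul_zero, add_zero] at h1
      rw [hS0, mul_zero, add_zero, ← h1, cc_zero]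
      exact ⟨by norm_num, Or.inl rfl⟩
    | succ s ih =>
      intro hs
      obtain ⟨ih1, ih2⟩ := ih (by omega)
      have hA' := hA s (by omega)
      rw [hB s (by omega), hB (s + 1) hs, hχ s] at hA'
      have hch : ((s : ℤ) + 1) * (d.choose (s + 1) : ℤ) = ((d : ℤ) - s) * (d.choose s : ℤ) := by
        have h1 := Nat.choose_succ_right_eq d s
        have h2 := congrArg (fun t : ℕ => (t : ℤ)) h1
        simp only [Nat.cast_mul, Nat.cast_add, Nat.cast_one] at h2
        rw [Nat.cast_sub (by omega)] at h2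
        linarith
      have hcc : ((s : ℤ) + 1) * (cc N (s + 1) : ℤ) = ((N : ℤ) + s) * (cc N s : ℤ) := by
        have := congrArg (fun t : ℕ => (t : ℤ)) (cc_succ N s)
        simp only [Nat.cast_mul, Nat.cast_add, Nat.cast_one] at this
        exact this
      have hrec : ((s : ℤ) + 1) * z (s + 1) + ((s : ℤ) + 1) * (d.choose (s + 1) : ℤ) * β (s + 1) ≤
          ((N : ℤ) + s) * z s := by
        have e : ((s : ℤ) + 1) * (z (s + 1) + (d.choose (s + 1) : ℤ) * (β (s + 1) - χ s)) +
            ((d : ℤ) - s) * (z s + (d.choose s : ℤ) * χ s) =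
            ((s : ℤ) + 1) * z (s + 1) + ((s : ℤ) + 1) * (d.choose (s + 1) : ℤ) * β (s + 1) +
            ((d : ℤ) - s) * z s + (((d : ℤ) - s) * (d.choose s : ℤ) -
              ((s : ℤ) + 1) * (d.choose (s + 1) : ℤ)) * χ s := by ring
        rw [e, hch, sub_self, zero_mul, add_zero] at hA'
        have e2 : ((s : ℤ) + 1) * (d.choose (s + 1) : ℤ) * β (s + 1) =
          ((d : ℤ) - s) * (d.choose s : ℤ) * β (s + 1) := by rw [hch]
        rw [e2]
        linarith
      have hdc : (0 : ℤ) ≤ (d.choose s : ℤ) := Int.natCast_nonneg _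
      have hstep : ((d : ℤ) - s) * ((d.choose s : ℤ) * S s) ≤ ((N : ℤ) + s) * ((d.choose s : ℤ) * S s) := by
        rcases ih2 with h1 | h1
        · rw [h1, mul_zero, mul_zero, mul_zero]
        · apply mul_le_mul_of_nonneg_right _ (mul_nonneg hdc (hSn s))
          have : (d : ℤ) ≤ (N : ℤ) + s := by exact_mod_cast h1
          have h3 : (0 : ℤ) ≤ s := Int.natCast_nonneg _
          linarith
      have hP : z (s + 1) + (d.choose (s + 1) : ℤ) * S (s + 1) ≤ (cc N (s + 1) : ℤ) := by
        have hpos : (0 : ℤ) < (s : ℤ) + 1 := by positivity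
        refine le_of_mul_le_mul_left ?_ hpos
        rw [hcc, hSs s]
        have hNs : (0 : ℤ) ≤ (N : ℤ) + s := by positivity
        have h5 := mul_le_mul_of_nonneg_left ih1 hNs
        have e3 : ((s : ℤ) + 1) * (z (s + 1) + (d.choose (s + 1) : ℤ) * (S s + β (s + 1))) =
            (((s : ℤ) + 1) * z (s + 1) + ((s : ℤ) + 1) * (d.choose (s + 1) : ℤ) * β (s + 1)) +
            (((s : ℤ) + 1) * (d.choose (s + 1) : ℤ)) * S s := by ring
        rw [e3, hch]
        rw [hch] at hrec
        have e4 : ((d : ℤ) - s) * (d.choose s : ℤ) * S s = ((d : ℤ) - s) * ((d.choose s : ℤ) * S s) := by ring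
        rw [e4]
        have e5 : ((N : ℤ) + s) * (z s + (d.choose s : ℤ) * S s) =
          ((N : ℤ) + s) * z s + ((N : ℤ) + s) * ((d.choose s : ℤ) * S s) := by ring
        rw [e5] at h5
        linarith
      refine ⟨hP, ?_⟩
      by_cases hS1 : S (s + 1) = 0
      · exact Or.inl hS1
      · right
        have h6 : 1 ≤ S (s + 1) := by
          have := hSn (s + 1)
          omega
        have h7 : (d.choose (s + 1) : ℤ) ≤ (cc N (s + 1) : ℤ) := by
          have h8 : (d.choose (s + 1) : ℤ) * 1 ≤ (d.choose (s + 1) : ℤ) * S (s + 1) :=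
            mul_le_mul_of_nonneg_left h6 (Int.natCast_nonneg _)
          have := hz (s + 1)
          linarith
        have h9 : d.choose (s + 1) ≤ cc N (s + 1) := by exact_mod_cast h7
        unfold cc at h9
        have := le_of_choose_le d _ (s + 1) hs (by omega) h9
        omega
  intro s hs
  have h1 := (key s hs).1
  have h2 := (hχS s).2
  rw [hB s hs]
  have h3 := mul_le_mul_of_nonneg_left h2 (Int.natCast_nonneg (d.choose s))
  linarith

end Pool.Agent.J6H34.UBC
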