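import Pool.Agent.Helper611.KFam
import Pool.Agent.J6H34.UBC.Numeric

set_option autoImplicit false
set_option linter.unusedSectionVars false

/-!
# The upper bound inequalities for complexes with acyclic links of nonempty faces
-/

namespace Pool.Agent.J6H34.UBC

open Pool.Agent.Helper611.ZBase Pool.Agent.Helper611.KRel Pool.Agent.Helper611.KVal
  Pool.Agent.Helper611.KDim Pool.Agent.Helper611.KTop Pool.Agent.Helper611.KFam

section star
variable {V : Type} [Fintype V] [LinearOrder V]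

/-- The closed star of a vertex. -/
def star (Γ : Cx V) (v : V) (hv : {v} ∈ Γ.faces) : Cx V where
  faces := Γ.faces.filter fun σ => insert v σ ∈ Γ.faces
  empty_mem := by
    rw [Finset.mem_filter]
    exact ⟨Γ.empty_mem, by simpa using hv⟩
  down := by
    intro σ hσ τ hτ
    rw [Finset.mem_filter] at hσ ⊢
    exact ⟨Γ.down σ hσ.1 τ hτ, Γ.down _ hσ.2 _ (Finset.insert_subset_insert v hτ)⟩

lemma mem_star (Γ : Cx V) (v : V) (hv : {v} ∈ Γ.faces) (σ : Finset V) :
    σ ∈ (star Γ v hv).faces ↔ σ ∈ Γ.faces ∧ insert v σ ∈ Γ.faces := Finset.mem_filter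

lemma star_acy (Γ : Cx V) (v : V) (hv : {v} ∈ Γ.faces) {M : Type*} [AddCommGroup M]
    (τ : Finset V) (i : ℕ) (h : v ∈ τ → Acy Γ M τ i) : Acy (star Γ v hv) M τ i := by
  by_cases hvτ : v ∈ τ
  · intro c hc hd
    obtain ⟨b, hb, hb2⟩ := h hvτ c
      (fun σ hσ => ⟨((mem_star Γ v hv σ).1 (hc σ hσ).1).1, (hc σ hσ).2⟩) hd
    refine ⟨b, fun σ hσ => ?_, hb2⟩
    obtain ⟨h1, h2, h3⟩ := hb σ hσ
    refine ⟨(mem_star Γ v hv σ).2 ⟨h1, ?_⟩, h2, h3⟩
    rw [Finset.insert_eq_self.2 (h2 hvτ)]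
    exact h1
  · intro c hc hd
    refine ⟨wdgM v c, fun σ hσ => ?_, fun ρ hρ => ?_⟩
    · unfold wdgM at hσ
      by_cases hvσ : v ∈ σ
      · rw [if_pos hvσ] at hσ
        have h1 : c (σ.erase v) ≠ 0 := fun h0 => hσ (by rw [h0, smul_zero])
        obtain ⟨h2, h3, h4⟩ := hc _ h1
        have h5 := ((mem_star Γ v hv _).1 h2).2
        rw [Finset.insert_erase hvσ] at h5
        refine ⟨(mem_star Γ v hv σ).2 ⟨h5, ?_⟩, h3.trans (Finset.erase_subset _ _), ?_⟩
        · rw [Finset.insert_eq_self.2 hvσ]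
          exact h5
        · rw [Finset.card_erase_of_mem hvσ] at h4
          have := Finset.card_pos.2 ⟨v, hvσ⟩
          omega
      · rw [if_neg hvσ] at hσ
        exact absurd rfl hσ
    · rw [bd_wdgM]
      have h1 : wdgM v (bd c) ρ = 0 := by
        unfold wdgM
        by_cases hvρ : v ∈ ρ
        · rw [if_pos hvρ, hd _ (Finset.subset_erase.2 ⟨hρ, hvτ⟩), smul_zero]
        · rw [if_neg hvρ]
      rw [h1, sub_zero]

/-- The star is acyclic, so its partial Euler characteristics vanish. -/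
lemma star_chi (F : Type) [Field F] (Γ : Cx V) (v : V) (hv : {v} ∈ Γ.faces) (s : ℕ) :
    chi F (star Γ v hv) s = 0 := by
  have hZB : ∀ k, ZS F (star Γ v hv) k = BS F (star Γ v hv) k := by
    intro k
    refine le_antisymm ?_ ?_
    · rintro c ⟨hc, hc2⟩
      have hc3 : bd c = 0 := hc2
      obtain ⟨b, hb, hb2⟩ := star_acy Γ v hv (M := F) ∅ k (fun h => absurd h (Finset.notMem_empty v)) c
        (fun σ hσ => ⟨(hc σ hσ).1, Finset.empty_subset _, (hc σ hσ).2⟩)
        (fun ρ _ => by rw [hc3]; rfl)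
      refine ⟨b, fun σ hσ => ⟨(hb σ hσ).1, (hb σ hσ).2.2⟩, ?_⟩
      funext ρ
      exact hb2 ρ (Finset.empty_subset _)
    · rintro c ⟨b, hb, rfl⟩
      refine ⟨?_, ?_⟩
      · intro σ hσ
        obtain ⟨x, hx, hx2⟩ := bd_ne b σ hσ
        obtain ⟨h1, h2⟩ := hb _ hx2
        refine ⟨(star Γ v hv).down _ h1 _ (Finset.subset_insert _ _), ?_⟩
        rw [Finset.card_insert_of_notMem hx] at h2
        omega
      · show bd (bd b) = 0
        funext ρ
        exact bd_bd b ρ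
  induction s with
  | zero => rw [chi_zero, hZB 0, sub_self]
  | succ s ih => rw [chi_step, ih, hZB (s + 1), sub_self, sub_zero]

variable {K : Type} [Field K] {d : ℕ}

/-- Null-homologous cycles of a subcomplex are null-homologous. -/
lemma ZN_mono (Γ Γ' : Cx V) (hsub : ∀ σ ∈ Γ'.faces, σ ∈ Γ.faces) (p : V → (Fin d → K)) (s : ℕ) :
    ZN (fun σ => σ ∈ Γ'.faces) p s ≤ ZN (fun σ => σ ∈ Γ.faces) p s := by
  have hr : ∀ (q : V → (Fin d → K)) (k : ℕ) (w : Finset V → ExteriorAlgebra K (Fin d → K)),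
      w ∈ CC (fun σ => σ ∈ Γ'.faces) q s k → w ∈ CC (fun σ => σ ∈ Γ.faces) q s k ∧
        rbd (fun σ => σ ∈ Γ'.faces) w = rbd (fun σ => σ ∈ Γ.faces) w := by
    rintro q k w ⟨h1, h2⟩
    refine ⟨⟨fun σ hσ => ⟨hsub _ (h1 σ hσ).1, (h1 σ hσ).2⟩, h2⟩, ?_⟩
    rw [rbd_eq_bd Γ' w fun σ hσ => (h1 σ hσ).1, rbd_eq_bd Γ w fun σ hσ => hsub _ (h1 σ hσ).1]
  rintro c ⟨⟨hc1, hc2⟩, ⟨b, hb, hb2⟩⟩
  obtain ⟨h1, h2⟩ := hr p s c hc1
  obtain ⟨h3, h4⟩ := hr 0 (s + 1) b hb
  refine ⟨⟨h1, ?_⟩, ⟨b, h3, ?_⟩⟩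
  · show rbd (fun σ => σ ∈ Γ.faces) c = 0
    rw [← h2]
    exact hc2
  · rw [← h4]
    exact hb2

end star

section count
variable {V : Type} [Fintype V] [LinearOrder V]

/-- The number of faces with `j` vertices. -/
def fn (Γ : Cx V) (j : ℕ) : ℤ := ((Γ.faces.filter fun σ => σ.card = j).card : ℤ)

/-- The `h`-numbers. -/
def hn (d : ℕ) (Γ : Cx V) (s : ℕ) : ℤ :=
  ∑ j ∈ Finset.range (s + 1), (-1 : ℤ) ^ (s - j) * ((((d - j).choose (s - j) : ℕ) : ℤ) * fn Γ j)

/-- The number of faces with `j` vertices which contain `v`. -/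
def ln (Γ : Cx V) (v : V) (j : ℕ) : ℤ := ((Γ.faces.filter fun σ => v ∈ σ ∧ σ.card = j).card : ℤ)

lemma sum_ln (Γ : Cx V) (j : ℕ) : ∑ v, ln Γ v j = (j : ℤ) * fn Γ j := by
  have h1 : ∑ v, (Γ.faces.filter fun σ => v ∈ σ ∧ σ.card = j).card =
      ∑ σ ∈ Γ.faces.filter (fun σ => σ.card = j), σ.card := by
    have h2 : ∀ v : V, (Γ.faces.filter fun σ => v ∈ σ ∧ σ.card = j).card =
        ∑ σ ∈ Γ.faces.filter (fun σ => σ.card = j), if v ∈ σ then 1 else 0 := by
      intro v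
      rw [← Finset.card_filter, Finset.filter_filter]
      congr 1
      ext σ
      simp only [Finset.mem_filter]
      tauto
    rw [Finset.sum_congr rfl fun v _ => h2 v, Finset.sum_comm]
    refine Finset.sum_congr rfl fun σ _ => ?_
    rw [Finset.sum_ite_mem, Finset.univ_inter, Finset.sum_const, smul_eq_mul, mul_one]
  have h3 : ∑ σ ∈ Γ.faces.filter (fun σ => σ.card = j), σ.card =
      j * (Γ.faces.filter fun σ => σ.card = j).card := by
    rw [Finset.sum_congr rfl fun σ hσ => (Finset.mem_filter.1 hσ).2, Finset.sum_const, smul_eq_mul,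
      mul_comm]
  unfold ln fn
  have h4 := congrArg (fun t : ℕ => (t : ℤ)) (h1.trans h3)
  push_cast at h4
  exact h4

lemma fn_star (Γ : Cx V) (v : V) (hv : {v} ∈ Γ.faces) (j : ℕ) :
    fn (star Γ v hv) j = ln Γ v j + ln Γ v (j + 1) := by
  unfold fn ln
  have h1 : (star Γ v hv).faces.filter (fun σ => σ.card = j) =
      (Γ.faces.filter fun σ => v ∈ σ ∧ σ.card = j) ∪
      ((Γ.faces.filter fun σ => v ∈ σ ∧ σ.card = j + 1).image fun σ => σ.erase v) := by
    ext σ
    simp only [Finset.mem_filter, mem_star, Finset.mem_union, Finset.mem_image]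
    constructor
    · rintro ⟨⟨h1, h2⟩, h3⟩
      by_cases hvσ : v ∈ σ
      · exact Or.inl ⟨h1, hvσ, h3⟩
      · right
        refine ⟨insert v σ, ⟨h2, Finset.mem_insert_self _ _, ?_⟩, Finset.erase_insert hvσ⟩
        rw [Finset.card_insert_of_notMem hvσ, h3]
    · rintro (⟨h1, h2, h3⟩ | ⟨ρ, ⟨h1, h2, h3⟩, rfl⟩)
      · exact ⟨⟨h1, by rw [Finset.insert_eq_self.2 h2]; exact h1⟩, h3⟩
      · refine ⟨⟨Γ.down ρ h1 _ (Finset.erase_subset _ _), ?_⟩, ?_⟩
        · rw [Finset.insert_erase h2]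
          exact h1
        · rw [Finset.card_erase_of_mem h2, h3]
          rfl
  rw [h1, Finset.card_union_of_disjoint, Finset.card_image_of_injOn]
  · push_cast
    ring
  · intro a ha b hb hab
    have ha' := (Finset.mem_filter.1 (Finset.mem_coe.1 ha)).2.1
    have hb' := (Finset.mem_filter.1 (Finset.mem_coe.1 hb)).2.1
    have : insert v (a.erase v) = insert v (b.erase v) := by
      have hab' : a.erase v = b.erase v := hab
      rw [hab']
    rwa [Finset.insert_erase ha', Finset.insert_erase hb'] at this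
  · rw [Finset.disjoint_left]
    intro σ h1 h2
    obtain ⟨ρ, _, rfl⟩ := Finset.mem_image.1 h2
    exact Finset.notMem_erase v ρ (Finset.mem_filter.1 h1).2.1

lemma ln_zero (Γ : Cx V) (v : V) (hv : {v} ∉ Γ.faces) (j : ℕ) : ln Γ v j = 0 := by
  unfold ln
  have : Γ.faces.filter (fun σ => v ∈ σ ∧ σ.card = j) = ∅ := by
    rw [Finset.filter_eq_empty_iff]
    intro σ hσ h
    exact hv (Γ.down σ hσ _ (Finset.singleton_subset_iff.2 h.1))
  rw [this, Finset.card_empty, Nat.cast_zero]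

/-- The `h`-number of the star of `v`, written with the numbers of faces containing `v`. -/
def hv (d : ℕ) (Γ : Cx V) (v : V) (s : ℕ) : ℤ :=
  ∑ j ∈ Finset.range (s + 1), (-1 : ℤ) ^ (s - j) *
    ((((d - j).choose (s - j) : ℕ) : ℤ) * (ln Γ v j + ln Γ v (j + 1)))

lemma hn_star (d : ℕ) (Γ : Cx V) (v : V) (h : {v} ∈ Γ.faces) (s : ℕ) :
    hn d (star Γ v h) s = hv d Γ v s := by
  unfold hn hv
  exact Finset.sum_congr rfl fun j _ => by rw [fn_star]

lemma hv_zero (d : ℕ) (Γ : Cx V) (v : V) (h : {v} ∉ Γ.faces) (s : ℕ) : hv d Γ v s = 0 := by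
  unfold hv
  refine Finset.sum_eq_zero fun j _ => ?_
  rw [ln_zero Γ v h, ln_zero Γ v h]
  ring

/-- McMullen's identity. -/
lemma mcmullen (d : ℕ) (Γ : Cx V) (s : ℕ) (hs : s < d) :
    ∑ v, hv d Γ v s = ((s : ℤ) + 1) * hn d Γ (s + 1) + ((d : ℤ) - s) * hn d Γ s := by
  have e1 : ∑ v, hv d Γ v s = ∑ j ∈ Finset.range (s + 1), (-1 : ℤ) ^ (s - j) *
      ((((d - j).choose (s - j) : ℕ) : ℤ) * ((j : ℤ) * fn Γ j + ((j : ℤ) + 1) * fn Γ (j + 1))) := by
    unfold hv
    rw [Finset.sum_comm]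
    refine Finset.sum_congr rfl fun j _ => ?_
    rw [← Finset.mul_sum, ← Finset.mul_sum, Finset.sum_add_distrib, sum_ln, sum_ln]
    push_cast
    ring
  have e2 : ∑ j ∈ Finset.range (s + 1), (-1 : ℤ) ^ (s - j) *
      ((((d - j).choose (s - j) : ℕ) : ℤ) * (((j : ℤ) + 1) * fn Γ (j + 1))) =
      ∑ k ∈ Finset.range (s + 1 + 1), (-1 : ℤ) ^ (s + 1 - k) *
      ((((d + 1 - k).choose (s + 1 - k) : ℕ) : ℤ) * ((k : ℤ) * fn Γ k)) := by
    rw [Finset.sum_range_succ' _ (s + 1)]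
    rw [Nat.cast_zero, zero_mul, mul_zero, mul_zero, add_zero]
    refine Finset.sum_congr rfl fun j _ => ?_
    have a1 : s + 1 - (j + 1) = s - j := by omega
    have a2 : d + 1 - (j + 1) = d - j := by omega
    rw [a1, a2]
    push_cast
    ring
  have e3 : ∑ v, hv d Γ v s = ∑ j ∈ Finset.range (s + 1), (-1 : ℤ) ^ (s - j) *
      ((((d - j).choose (s - j) : ℕ) : ℤ) * ((j : ℤ) * fn Γ j)) +
      ∑ k ∈ Finset.range (s + 1 + 1), (-1 : ℤ) ^ (s + 1 - k) *
      ((((d + 1 - k).choose (s + 1 - k) : ℕ) : ℤ) * ((k : ℤ) * fn Γ k)) := by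
    rw [e1, ← e2, ← Finset.sum_add_distrib]
    exact Finset.sum_congr rfl fun j _ => by ring
  rw [e3]
  unfold hn
  rw [Finset.sum_range_succ _ (s + 1), Finset.sum_range_succ _ (s + 1)]
  have b1 : d + 1 - (s + 1) = d - s := by omega
  rw [Nat.sub_self, b1, Nat.choose_zero_right, Nat.choose_zero_right, mul_add, Finset.mul_sum,
    Finset.mul_sum]
  have e4 : ∑ j ∈ Finset.range (s + 1), (-1 : ℤ) ^ (s - j) *
      ((((d - j).choose (s - j) : ℕ) : ℤ) * ((j : ℤ) * fn Γ j)) +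
      ∑ k ∈ Finset.range (s + 1), (-1 : ℤ) ^ (s + 1 - k) *
      ((((d + 1 - k).choose (s + 1 - k) : ℕ) : ℤ) * ((k : ℤ) * fn Γ k)) =
      ∑ j ∈ Finset.range (s + 1), ((s : ℤ) + 1) * ((-1 : ℤ) ^ (s + 1 - j) *
        ((((d - j).choose (s + 1 - j) : ℕ) : ℤ) * fn Γ j)) +
      ∑ j ∈ Finset.range (s + 1), ((d : ℤ) - s) * ((-1 : ℤ) ^ (s - j) *
        ((((d - j).choose (s - j) : ℕ) : ℤ) * fn Γ j)) := by
    rw [← Finset.sum_add_distrib, ← Finset.sum_add_distrib]
    refine Finset.sum_congr rfl fun j hj => ?_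
    have hj' := Finset.mem_range.1 hj
    have c1 : s + 1 - j = (s - j) + 1 := by omega
    have c2 : d + 1 - j = (d - j) + 1 := by omega
    have p1 := Nat.choose_succ_succ' (d - j) (s - j)
    have p2 := Nat.choose_succ_right_eq (d - j) (s - j)
    have p3 : d - j - (s - j) = d - s := by omega
    rw [p3] at p2
    have p2' := congrArg (fun t : ℕ => (t : ℤ)) p2
    simp only [Nat.cast_mul, Nat.cast_add, Nat.cast_one] at p2'
    rw [Nat.cast_sub hs.le, Nat.cast_sub (by omega : j ≤ s)] at p2'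
    rw [c1, c2, p1, pow_succ]
    push_cast
    linear_combination (((-1 : ℤ) ^ (s - j)) * fn Γ j) * p2'
  push_cast
  linear_combination e4

end count

section main
variable {V : Type} [Fintype V] [LinearOrder V]

/-- **The upper bound inequalities.** -/
theorem ubc (Γ : Cx V) (d : ℕ)
    (v0 : V) (hv0 : {v0} ∈ Γ.faces) (hn' : d ≤ Fintype.card V)
    (hZ : ∀ (τ : Finset V) (i : ℕ), τ.Nonempty → i < d → Acy Γ ℤ τ i) (s : ℕ) (hs : s ≤ d) :
    hn d Γ s ≤ (((Fintype.card V - d + s - 1).choose s : ℕ) : ℤ) := by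
  classical
  let K := ℚ
  let a : V → K := fun v => ((Fintype.equivFin V v : ℕ) : ℚ)
  have ha : Function.Injective a := by
    intro x y hxy
    have h1 : ((Fintype.equivFin V x : ℕ) : ℚ) = ((Fintype.equivFin V y : ℕ) : ℚ) := hxy
    have h2 : (Fintype.equivFin V x : ℕ) = (Fintype.equivFin V y : ℕ) := by exact_mod_cast h1
    exact (Fintype.equivFin V).injective (Fin.ext h2)
  let p : V → (Fin d → K) := mom d a
  -- exactness
  have hcm : ∀ (Δ : Cx V), (∀ (τ : Finset V) (i : ℕ), τ.Nonempty → i < d → Acy Δ ℤ τ i) →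
      ∀ (s' : ℕ) (A τ : Finset V) (k : ℕ), s' ≤ d → τ.Nonempty → k < s' →
        AcyV (fun σ => σ ∈ Δ.faces) p s' A τ k := by
    intro Δ hΔ s' A τ k hs' hτ hk
    refine acyV_ne _ (fun _ ρ π _ h2 _ h4 => Δ.down π h4 ρ h2) p (dual_mom _ a ha) ?_ (d - s') s'
      (by omega) A τ k hτ hk
    intro τ' k' s'' hτ' hk'
    exact acyP_of_acy Δ τ' k' (acy_change (R := ℤ) Δ τ' k' (fun k'' hk'' => hΔ τ' k'' hτ' (by omega))
      k' le_rfl)
  have hform := fun s' hs' => h_formula Γ p s' hs' (dual_mom _ a ha) (hcm Γ hZ)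
  have hstarZ : ∀ (v : V) (hv : {v} ∈ Γ.faces) (τ : Finset V) (i : ℕ), τ.Nonempty → i < d →
      Acy (star Γ v hv) ℤ τ i := fun v hv τ i hτ hi => star_acy Γ v hv τ i fun _ => hZ τ i hτ hi
  have hformS := fun v hv s' hs' => h_formula (star Γ v hv) p s' hs' (dual_mom _ a ha)
    (hcm (star Γ v hv) (hstarZ v hv))
  have hCC := CC_fin (V := V) (K := K) (d := d)
  -- the stars
  have hstar : ∀ (v : V) (s' : ℕ), s' ≤ d → hv d Γ v s' ≤
      (Module.finrank K (ZN (fun σ => σ ∈ Γ.faces) p s') : ℤ) := by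
    intro v s' hs'
    by_cases h : {v} ∈ Γ.faces
    · rw [← hn_star d Γ v h s']
      have h1 := hformS v h s' hs'
      rw [star_chi K Γ v h s', mul_zero, add_zero] at h1
      have h2 : hn d (star Γ v h) s' =
        (Module.finrank K (ZN (fun σ => σ ∈ (star Γ v h).faces) p s') : ℤ) := h1
      rw [h2]
      have h3 := Submodule.finrank_mono (ZN_mono Γ (star Γ v h)
        (fun σ hσ => ((mem_star Γ v h σ).1 hσ).1) p s')
      exact_mod_cast h3
    · rw [hv_zero d Γ v h]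
      exact Int.natCast_nonneg _
  -- the Betti numbers
  let β : ℕ → ℤ := fun k => (Module.finrank K (ZS K Γ k) : ℤ) - (Module.finrank K (BS K Γ k) : ℤ)
  have hBZ : ∀ k, BS K Γ k ≤ ZS K Γ k := by
    intro k
    rintro c ⟨b, hb, rfl⟩
    refine ⟨?_, ?_⟩
    · intro σ hσ
      obtain ⟨x, hx, hx2⟩ := bd_ne b σ hσ
      obtain ⟨h1, h2⟩ := hb _ hx2
      refine ⟨Γ.down _ h1 _ (Finset.subset_insert _ _), ?_⟩
      rw [Finset.card_insert_of_notMem hx] at h2
      omega
    · show bd (bd b) = 0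
      funext ρ
      exact bd_bd b ρ
  have hβ : ∀ k, 0 ≤ β k := by
    intro k
    have := Submodule.finrank_mono (hBZ k)
    show 0 ≤ (Module.finrank K (ZS K Γ k) : ℤ) - (Module.finrank K (BS K Γ k) : ℤ)
    have h2 : (Module.finrank K (BS K Γ k) : ℤ) ≤ (Module.finrank K (ZS K Γ k) : ℤ) := by
      exact_mod_cast this
    linarith
  have hβ0 : β 0 = 0 := by
    have h1 : ZS K Γ 0 = BS K Γ 0 := by
      refine le_antisymm ?_ (hBZ 0)
      rintro c ⟨hc, hc2⟩
      have hc3 : bd c = 0 := hc2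
      obtain ⟨b, hb, hb2⟩ := star_acy Γ v0 hv0 (M := K) ∅ 0
        (fun h => absurd h (Finset.notMem_empty v0)) c
        (fun σ hσ => by
          have h2 : σ = ∅ := Finset.card_eq_zero.1 (hc σ hσ).2
          rw [h2]
          exact ⟨(star Γ v0 hv0).empty_mem, Finset.empty_subset _, Finset.card_empty⟩)
        (fun ρ _ => by rw [hc3]; rfl)
      refine ⟨b, fun σ hσ => ⟨((mem_star Γ v0 hv0 σ).1 (hb σ hσ).1).1, (hb σ hσ).2.2⟩, ?_⟩
      funext ρ
      exact hb2 ρ (Finset.empty_subset _)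
    show (Module.finrank K (ZS K Γ 0) : ℤ) - (Module.finrank K (BS K Γ 0) : ℤ) = 0
    rw [h1, sub_self]
  have hfn0 : fn Γ 0 = 1 := by
    unfold fn
    have : Γ.faces.filter (fun σ => σ.card = 0) = {∅} := by
      ext F
      simp only [Finset.mem_filter, Finset.card_eq_zero, Finset.mem_singleton]
      constructor
      · exact fun h => h.2
      · rintro rfl
        exact ⟨Γ.empty_mem, rfl⟩
    rw [this, Finset.card_singleton, Nat.cast_one]
  obtain ⟨N, hN⟩ : ∃ N, Fintype.card V = d + N := ⟨Fintype.card V - d, by omega⟩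
  have hmain := numeric d N (hn d Γ)
    (fun s' => (Module.finrank K (ZN (fun σ => σ ∈ Γ.faces) p s') : ℤ)) β (chi K Γ)
    (fun s' => Int.natCast_nonneg _) hβ
    (by
      unfold hn
      rw [Finset.sum_range_one, hfn0]
      simp)
    hβ0 (by rw [chi_zero]; exact hβ0) (fun s' => chi_step K Γ s') (fun s' hs' => hform s' hs')
    (by
      intro s' hs'
      rw [← mcmullen d Γ s' hs']
      calc ∑ v, hv d Γ v s' ≤ ∑ _v : V,
            (Module.finrank K (ZN (fun σ => σ ∈ Γ.faces) p s') : ℤ) :=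
            Finset.sum_le_sum fun v _ => hstar v s' hs'.le
        _ = ((N : ℤ) + d) * _ := by
            rw [Finset.sum_const, Finset.card_univ, hN, nsmul_eq_mul]
            push_cast
            ring) s hs
  have e : Fintype.card V - d + s - 1 = N + s - 1 := by omega
  rw [e]
  exact hmain

end main

end Pool.Agent.J6H34.UBC
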