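import Pool.Agent.Helper611.ZBase
import Pool.Agent.Helper514.IoD

set_option autoImplicit false
set_option linter.unusedSectionVars false

/-!
# The dimension of the faces is at most the dimension of the charts
-/

namespace Pool.Agent.J6H34.UBC

open Pool.Agent.Helper611.ZBase Metric Set Topology

variable {V : Type} [Fintype V] [LinearOrder V] {M : ℕ}

/-- A face of dimension `D` and a chart of dimension `M`: `D ≤ M`. -/
lemma dim_le (Γ : Cx V) (σ0 : Finset V) (hσ0 : σ0 ∈ Γ.faces) (D : ℕ) (hcard : σ0.card = D + 1)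
    {H : Type} [TopologicalSpace H] (ι : H → EuclideanSpace ℝ (Fin M)) (hιc : Continuous ι)
    (hιi : Function.Injective ι) (x0 : realization Γ) (hx0 : x0.1 ∈ cell σ0)
    (hpos : ∀ v ∈ σ0, 0 < x0.1 v) (ψ : OpenPartialHomeomorph (realization Γ) H)
    (hs : x0 ∈ ψ.source) : D ≤ M := by
  classical
  by_contra hcon
  rw [not_le] at hcon
  obtain ⟨v1, hv1⟩ : σ0.Nonempty := Finset.card_pos.1 (by omega)
  have hS0 : (σ0.erase v1).card = D := by
    rw [Finset.card_erase_of_mem hv1, hcard]; rfl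
  let en : Fin D ≃ ↥(σ0.erase v1) := ((σ0.erase v1).equivFinOfCardEq hS0).symm
  let q : EuclideanSpace ℝ (Fin D) → (V → ℝ) := fun t v =>
    if h : v ∈ σ0.erase v1 then x0.1 v + t (en.symm ⟨v, h⟩) else
      if v = v1 then x0.1 v1 - ∑ i, t i else 0
  have q1 : ∀ t v (h : v ∈ σ0.erase v1), q t v = x0.1 v + t (en.symm ⟨v, h⟩) := fun t v h => dif_pos h
  have q2 : ∀ t, q t v1 = x0.1 v1 - ∑ i, t i := by
    intro t
    exact (dif_neg (Finset.notMem_erase v1 σ0)).trans (if_pos rfl)
  have q3 : ∀ t v, v ∉ σ0 → q t v = 0 := by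
    intro t v hv
    refine (dif_neg fun h => hv (Finset.mem_of_mem_erase h)).trans (if_neg ?_)
    rintro rfl
    exact hv hv1
  have hqc : Continuous q := by
    refine continuous_pi fun v => ?_
    by_cases h : v ∈ σ0.erase v1
    · have : (fun t => q t v) = fun t => x0.1 v + t (en.symm ⟨v, h⟩) := funext fun t => q1 t v h
      rw [this]
      fun_prop
    · by_cases h2 : v = v1
      · have : (fun t => q t v) = fun t => x0.1 v1 - ∑ i, t i := by
          funext t
          rw [h2, q2]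
        rw [this]
        fun_prop
      · have : (fun t => q t v) = fun _ => 0 := by
          funext t
          exact (dif_neg h).trans (if_neg h2)
        rw [this]
        exact continuous_const
  have hq0 : q 0 = x0.1 := by
    funext v
    by_cases h : v ∈ σ0.erase v1
    · rw [q1 0 v h]
      simp
    · by_cases h2 : v = v1
      · rw [h2, q2]
        simp
      · have hv : v ∉ σ0 := fun h3 => h (Finset.mem_erase.2 ⟨h2, h3⟩)
        rw [q3 0 v hv]
        exact (hx0.2.2 v hv).symm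
  have hsum : ∀ t, ∑ v, q t v = 1 := by
    intro t
    have e1 : ∑ v, q t v = ∑ v ∈ σ0, q t v :=
      (Finset.sum_subset (Finset.subset_univ _) fun v _ hv => q3 t v hv).symm
    have e2 : ∑ v, x0.1 v = ∑ v ∈ σ0, x0.1 v :=
      (Finset.sum_subset (Finset.subset_univ _) fun v _ hv => hx0.2.2 v hv).symm
    have e3 : ∑ v ∈ σ0.erase v1, q t v = ∑ v ∈ σ0.erase v1, x0.1 v + ∑ i, t i := by
      rw [← Finset.sum_coe_sort (σ0.erase v1) (fun v => q t v),
        ← Finset.sum_coe_sort (σ0.erase v1) (fun v => x0.1 v),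
        ← en.sum_comp (fun v => q t v), ← en.sum_comp (fun v : ↥(σ0.erase v1) => x0.1 v),
        ← Finset.sum_add_distrib]
      refine Finset.sum_congr rfl fun i _ => ?_
      rw [q1 t _ (en i).2]
      have h6 : en.symm ⟨(en i).1, (en i).2⟩ = i := en.symm_apply_apply i
      rw [h6]
    rw [e1, ← Finset.add_sum_erase _ _ hv1, e3, q2, ← hx0.2.1, e2, ← Finset.add_sum_erase _ _ hv1]
    ring
  obtain ⟨O, hO, hOs⟩ := isOpen_induced_iff.1 ψ.open_source
  have hmemO : ∀ (u : V → ℝ) (h : u ∈ realization Γ), u ∈ O ↔ (⟨u, h⟩ : realization Γ) ∈ ψ.source := by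
    intro u h
    rw [← hOs]
    rfl
  let S : Set (EuclideanSpace ℝ (Fin D)) := {t | (∀ v ∈ σ0, 0 < q t v) ∧ q t ∈ O}
  have hSo : IsOpen S := by
    have h1 : IsOpen {t : EuclideanSpace ℝ (Fin D) | ∀ v ∈ σ0, 0 < q t v} := by
      have : {t : EuclideanSpace ℝ (Fin D) | ∀ v ∈ σ0, 0 < q t v} = ⋂ v ∈ σ0, {t | 0 < q t v} := by
        ext t; simp
      rw [this]
      refine isOpen_biInter_finset fun v _ => ?_
      exact isOpen_lt continuous_const ((continuous_apply v).comp hqc)
    exact h1.inter (hO.preimage hqc)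
  have h0S : (0 : EuclideanSpace ℝ (Fin D)) ∈ S := by
    refine ⟨?_, ?_⟩
    · rw [hq0]; exact hpos
    · rw [hq0, hmemO _ x0.2]
      exact hs
  obtain ⟨ρ1, hρ1, hball⟩ := Metric.isOpen_iff.1 hSo 0 h0S
  have hcb : closedBall (0 : EuclideanSpace ℝ (Fin D)) (ρ1 / 2) ⊆ S :=
    (closedBall_subset_ball (by linarith)).trans hball
  have hSX : ∀ t ∈ S, q t ∈ realization Γ := by
    intro t ht
    refine cell_sub Γ σ0 hσ0 ⟨fun v => ?_, hsum t, fun v hv => q3 t v hv⟩
    by_cases hv : v ∈ σ0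
    · exact (ht.1 v hv).le
    · rw [q3 t v hv]
  -- the inclusion of the coordinate space
  let j : EuclideanSpace ℝ (Fin M) → EuclideanSpace ℝ (Fin D) := fun w =>
    WithLp.toLp 2 fun i : Fin D => if h : (i : ℕ) < M then w ⟨i, h⟩ else 0
  have hjc : Continuous j := by
    refine (PiLp.continuous_toLp 2 _).comp (continuous_pi fun i => ?_)
    by_cases h : (i : ℕ) < M
    · simp only [dif_pos h]
      fun_prop
    · simp only [dif_neg h]
      exact continuous_const
  have hji : Function.Injective j := by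
    intro w w' hww
    ext i
    have h1 := congrFun (congrArg WithLp.ofLp hww) ⟨i, by omega⟩
    simp only [j, dif_pos i.2] at h1
    exact h1
  let F : EuclideanSpace ℝ (Fin D) → EuclideanSpace ℝ (Fin D) := fun t =>
    if h : q t ∈ realization Γ then j (ι (ψ ⟨q t, h⟩)) else 0
  have hF : ∀ t (h : q t ∈ realization Γ), F t = j (ι (ψ ⟨q t, h⟩)) := fun t h => dif_pos h
  have hFc : ContinuousOn F (closedBall 0 (ρ1 / 2)) := by
    rw [continuousOn_iff_continuous_domRestrict]
    have e1 : (closedBall (0 : EuclideanSpace ℝ (Fin D)) (ρ1 / 2)).domRestrict F =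
        fun t => j (ι (ψ ⟨q t.1, hSX t.1 (hcb t.2)⟩)) := by
      funext t
      exact hF t.1 _
    rw [e1]
    refine hjc.comp (hιc.comp ?_)
    refine ψ.continuousOn.comp_continuous ?_ ?_
    · exact Continuous.subtype_mk (hqc.comp continuous_subtype_val) _
    · intro t
      rw [← hmemO]
      exact (hcb t.2).2
  have hFi : InjOn F (closedBall 0 (ρ1 / 2)) := by
    intro t ht t' ht' htt
    have h1 := hcb ht
    have h2 := hcb ht'
    rw [hF t (hSX t h1), hF t' (hSX t' h2)] at htt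
    have h3 := ψ.injOn ((hmemO _ (hSX t h1)).1 h1.2) ((hmemO _ (hSX t' h2)).1 h2.2) (hιi (hji htt))
    have h4 : q t = q t' := congrArg Subtype.val h3
    ext i
    have h5 := congrFun h4 (en i).1
    rw [q1 t _ (en i).2, q1 t' _ (en i).2] at h5
    have h6 : en.symm ⟨(en i).1, (en i).2⟩ = i := en.symm_apply_apply i
    rw [h6] at h5
    linarith
  have hn := Pool.Agent.Helper514.IoD.image_mem_nhds F 0 (ρ1 / 2) (by positivity) hFc hFi
  obtain ⟨ε, hε, hεb⟩ := Metric.mem_nhds_iff.1 hn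
  have hz : ∀ z ∈ F '' closedBall 0 (ρ1 / 2), z ⟨M, hcon⟩ = 0 := by
    rintro _ ⟨t, ht, rfl⟩
    rw [hF t (hSX t (hcb ht))]
    show (if h : ((⟨M, hcon⟩ : Fin D) : ℕ) < M then _ else (0 : ℝ)) = 0
    exact dif_neg (lt_irrefl _)
  have hF0 : F 0 ⟨M, hcon⟩ = 0 := hz _ ⟨0, mem_closedBall_self (by positivity), rfl⟩
  have h7 : F 0 + EuclideanSpace.single ⟨M, hcon⟩ (ε / 2) ∈ ball (F 0) ε := by
    rw [mem_ball, dist_eq_norm, add_sub_cancel_left, PiLp.norm_single, Real.norm_eq_abs,
      abs_of_pos (by positivity)]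
    linarith
  have h8 := hz _ (hεb h7)
  rw [PiLp.add_apply, hF0, zero_add] at h8
  have h9 : (EuclideanSpace.single (⟨M, hcon⟩ : Fin D) (ε / 2) : EuclideanSpace ℝ (Fin D)) ⟨M, hcon⟩ =
      ε / 2 := by simp
  rw [h9] at h8
  linarith

end Pool.Agent.J6H34.UBC
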