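import Pool.Agent.Helper611.ZBase

set_option autoImplicit false
set_option linter.unusedSectionVars false

/-!
# Local homology of a complex whose realization has charts
-/

namespace Pool.Agent.J6H34.UBC

open Pool.Agent.Helper611.ZBase Metric Set Topology

variable {V : Type} [Fintype V] [LinearOrder V] {M : ℕ}

/-- The data extracted from a chart at the point `x`. -/
lemma chart_data (Γ : Cx V) {H : Type} [TopologicalSpace H] (ι : H → EuclideanSpace ℝ (Fin M))
    (hι : IsClosedEmbedding ι) (ψ : OpenPartialHomeomorph (realization Γ) H)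
    (x : realization Γ) (hx : x ∈ ψ.source) (r0 : ℝ) (hr0 : 0 < r0) :
    ∃ (r : ℝ) (f : (V → ℝ) → EuclideanSpace ℝ (Fin M)) (e : EuclideanSpace ℝ (Fin M) → (V → ℝ))
      (O : Set (V → ℝ)), 0 < r ∧ r ≤ r0 ∧ Continuous f ∧
      ContinuousOn e (closedBall (ι (ψ x)) r ∩ range ι) ∧
      (∀ w ∈ closedBall (ι (ψ x)) r ∩ range ι, e w ∈ realization Γ ∧ f (e w) = w) ∧
      e (ι (ψ x)) = x ∧ IsOpen O ∧
      (∀ u ∈ realization Γ, u ∈ O ↔ ∃ w ∈ ball (ι (ψ x)) r ∩ range ι, e w = u) := by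
  classical
  obtain ⟨T, hT, hTt⟩ := hι.isInducing.isOpen_iff.1 ψ.open_target
  have hyT : ι (ψ x) ∈ T := by
    have h1 : ψ x ∈ ψ.target := ψ.map_source hx
    rw [← hTt] at h1
    exact h1
  obtain ⟨r1, hr1, hball⟩ := Metric.isOpen_iff.1 hT _ hyT
  let r : ℝ := min (r1 / 2) r0
  have hr : 0 < r := lt_min (by positivity) hr0
  have hrr1 : r < r1 := lt_of_le_of_lt (min_le_left _ _) (by linarith)
  have hcb : closedBall (ι (ψ x)) r ⊆ T := (closedBall_subset_ball hrr1).trans hball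
  have hne : Nonempty H := ⟨ψ x⟩
  let inv : EuclideanSpace ℝ (Fin M) → H := Function.invFun ι
  have hinv1 : ∀ w ∈ range ι, ι (inv w) = w := fun w hw => Function.invFun_eq hw
  have hinv2 : ∀ h, inv (ι h) = h := Function.leftInverse_invFun hι.injective
  have hinvc : ContinuousOn inv (range ι) := by
    rw [hι.isInducing.continuousOn_iff]
    exact continuousOn_id.congr fun w hw => hinv1 w hw
  let D : Set (EuclideanSpace ℝ (Fin M)) := closedBall (ι (ψ x)) r ∩ range ι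
  have hDc : IsCompact D := (isCompact_closedBall _ _).inter_right hι.isClosed_range
  have hDt : ∀ w ∈ D, inv w ∈ ψ.target := by
    intro w hw
    rw [← hTt]
    show ι (inv w) ∈ T
    rw [hinv1 w hw.2]
    exact hcb hw.1
  let e : EuclideanSpace ℝ (Fin M) → (V → ℝ) := fun w => (ψ.symm (inv w)).1
  have hec : ContinuousOn e D := by
    refine continuous_subtype_val.comp_continuousOn ?_
    exact ψ.continuousOn_symm.comp (hinvc.mono inter_subset_right) hDt
  have heX : ∀ w, e w ∈ realization Γ := fun w => (ψ.symm (inv w)).2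
  have hψe : ∀ w ∈ D, ∀ (h : e w ∈ realization Γ), ι (ψ ⟨e w, h⟩) = w := by
    intro w hw h
    have h1 : (⟨e w, h⟩ : realization Γ) = ψ.symm (inv w) := Subtype.ext rfl
    rw [h1, ψ.right_inv (hDt w hw), hinv1 w hw.2]
  have hψs : ∀ w ∈ D, ∀ (h : e w ∈ realization Γ), (⟨e w, h⟩ : realization Γ) ∈ ψ.source := by
    intro w hw h
    have h1 : (⟨e w, h⟩ : realization Γ) = ψ.symm (inv w) := Subtype.ext rfl
    rw [h1]
    exact ψ.map_target (hDt w hw)
  have hQc : IsCompact (e '' D) := hDc.image_of_continuousOn hec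
  have hQX : ∀ u ∈ e '' D, ∃ h : u ∈ realization Γ, (⟨u, h⟩ : realization Γ) ∈ ψ.source := by
    rintro _ ⟨w, hw, rfl⟩
    exact ⟨heX w, hψs w hw _⟩
  let g : C(↥(e '' D), EuclideanSpace ℝ (Fin M)) :=
    ⟨fun u => ι (ψ ⟨u.1, (hQX u.1 u.2).1⟩), by
      refine hι.continuous.comp ?_
      refine ψ.continuousOn.comp_continuous ?_ fun u => (hQX u.1 u.2).2
      exact Continuous.subtype_mk continuous_subtype_val _⟩
  obtain ⟨F, hF⟩ := ContinuousMap.exists_restrict_eq hQc.isClosed g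
  have hFu : ∀ u (hu : u ∈ e '' D), F u = ι (ψ ⟨u, (hQX u hu).1⟩) := by
    intro u hu
    have := congrArg (fun G : C(↥(e '' D), EuclideanSpace ℝ (Fin M)) => G ⟨u, hu⟩) hF
    exact this
  have hA : IsOpen (ψ.source ∩ ψ ⁻¹' (ι ⁻¹' ball (ι (ψ x)) r)) :=
    ψ.isOpen_inter_preimage (isOpen_ball.preimage hι.continuous)
  obtain ⟨O, hO, hOA⟩ := isOpen_induced_iff.1 hA
  refine ⟨r, F, e, O, hr, min_le_right _ _, F.continuous, hec, ?_, ?_, hO, ?_⟩
  · intro w hw
    refine ⟨heX w, ?_⟩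
    rw [hFu _ (mem_image_of_mem e hw)]
    exact hψe w hw _
  · show (ψ.symm (inv (ι (ψ x)))).1 = x.1
    rw [hinv2, ψ.left_inv hx]
  · intro u hu
    have h1 : u ∈ O ↔ (⟨u, hu⟩ : realization Γ) ∈ ψ.source ∩ ψ ⁻¹' (ι ⁻¹' ball (ι (ψ x)) r) := by
      rw [← hOA]
      rfl
    rw [h1]
    constructor
    · rintro ⟨h2, h3⟩
      refine ⟨ι (ψ ⟨u, hu⟩), ⟨h3, mem_range_self _⟩, ?_⟩
      show (ψ.symm (inv (ι (ψ ⟨u, hu⟩)))).1 = u
      rw [hinv2, ψ.left_inv h2]
    · rintro ⟨w, hw, rfl⟩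
      have hwD : w ∈ D := ⟨ball_subset_closedBall hw.1, hw.2⟩
      refine ⟨hψs w hwD _, ?_⟩
      show ι (ψ ⟨e w, hu⟩) ∈ ball (ι (ψ x)) r
      rw [hψe w hwD]
      exact hw.1

/-- A bump function of the distance. -/
noncomputable def lam (r s : ℝ) : ℝ := max 0 (min 1 (3 - 4 * s / r))

lemma lam_nonneg (r s : ℝ) : 0 ≤ lam r s := le_max_left _ _

lemma lam_le_one (r s : ℝ) : lam r s ≤ 1 := max_le zero_le_one (min_le_left _ _)

lemma lam_cont (r : ℝ) : Continuous (lam r) := by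
  unfold lam
  fun_prop

lemma lam_eq_zero (r s : ℝ) (hr : 0 < r) (h : 3 * r / 4 ≤ s) : lam r s = 0 := by
  unfold lam
  have h1 : 3 ≤ 4 * s / r := by
    rw [le_div_iff₀ hr]
    linarith
  rw [max_eq_left]
  exact (min_le_right _ _).trans (by linarith)

lemma lam_eq_one (r s : ℝ) (hr : 0 < r) (h : s ≤ r / 2) : lam r s = 1 := by
  unfold lam
  have h1 : 4 * s / r ≤ 2 := by
    rw [div_le_iff₀ hr]
    linarith
  rw [min_eq_left (by linarith), max_eq_right zero_le_one]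

/-- Pushing points off `x` inside a chart gives exactness. -/
lemma acy_push (Γ : Cx V) (n : ℕ) (τ : Finset V) (hne : τ.Nonempty) (x : V → ℝ)
    (hx : x ∈ cell τ) (hxp : ∀ v ∈ τ, 0 < x v)
    (C : Set (EuclideanSpace ℝ (Fin M))) (hC : IsClosed C) (y : EuclideanSpace ℝ (Fin M)) (hyC : y ∈ C)
    (r : ℝ) (f : (V → ℝ) → EuclideanSpace ℝ (Fin M)) (e : EuclideanSpace ℝ (Fin M) → (V → ℝ))
    (O : Set (V → ℝ)) (hr : 0 < r) (hf : Continuous f)
    (he : ContinuousOn e (closedBall y r ∩ C))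
    (hef : ∀ w ∈ closedBall y r ∩ C, e w ∈ realization Γ ∧ f (e w) = w)
    (hey : e y = x) (hO : IsOpen O)
    (hOe : ∀ u ∈ realization Γ, u ∈ O ↔ ∃ w ∈ ball y r ∩ C, e w = u)
    (δ : (V → ℝ) → EuclideanSpace ℝ (Fin M)) (hδ : Continuous δ)
    (hδr : ∀ u ∈ realization Γ, ‖δ u‖ ≤ r / 4)
    (hδC : ∀ u ∈ realization Γ, f u ∈ C → ‖f u - y‖ ≤ 3 * r / 4 → ∀ s ∈ Icc (0 : ℝ) 1,
      f u + s • δ u ∈ C)
    (c1 : ∀ σ ∈ Γ.faces, ¬ τ ⊆ σ → ∀ u ∈ cell σ, u ∈ e '' (closedBall y r ∩ C) →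
      ∀ s ∈ Icc (0 : ℝ) 1, f u + s • δ u ≠ y)
    (c2 : ∀ σ ∈ Γ.faces, σ.card ≤ n → ∀ u ∈ cell σ, u ∈ e '' (closedBall y r ∩ C) →
      f u + lam r ‖f u - y‖ • δ u ≠ y)
    (k : ℕ) (hk : k ≤ n) : Acy Γ ℤ τ k := by
  classical
  let D : Set (EuclideanSpace ℝ (Fin M)) := closedBall y r ∩ C
  have hyD : y ∈ D := ⟨mem_closedBall_self hr.le, hyC⟩
  have hDc : IsCompact D := (isCompact_closedBall _ _).inter_right hC
  have hQc : IsCompact (e '' D) := hDc.image_of_continuousOn he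
  have hfQ : ∀ u ∈ e '' D, f u ∈ D ∧ e (f u) = u ∧ u ∈ realization Γ := by
    rintro _ ⟨w, hw, rfl⟩
    have h1 := hef w hw
    rw [h1.2]
    exact ⟨hw, rfl, h1.1⟩
  let mv : (V → ℝ) × ℝ → EuclideanSpace ℝ (Fin M) := fun p =>
    f p.1 + (p.2 * lam r ‖f p.1 - y‖) • δ p.1
  have hmvc : Continuous mv := by
    have h1 : Continuous fun p : (V → ℝ) × ℝ => lam r ‖f p.1 - y‖ :=
      (lam_cont r).comp ((hf.comp continuous_fst).sub continuous_const).norm
    exact (hf.comp continuous_fst).add ((continuous_snd.mul h1).smul (hδ.comp continuous_fst))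
  have hmvD : ∀ u ∈ e '' D, ∀ t ∈ Icc (0 : ℝ) 1, mv (u, t) ∈ D := by
    intro u hu t ht
    obtain ⟨h1, _, h3⟩ := hfQ u hu
    show f u + (t * lam r ‖f u - y‖) • δ u ∈ D
    have hl0 := lam_nonneg r ‖f u - y‖
    have hl1 := lam_le_one r ‖f u - y‖
    rcases le_or_gt (3 * r / 4) ‖f u - y‖ with h4 | h4
    · rw [lam_eq_zero r _ hr h4, mul_zero, zero_smul, add_zero]
      exact h1
    · have hs : t * lam r ‖f u - y‖ ∈ Icc (0 : ℝ) 1 :=
        ⟨mul_nonneg ht.1 hl0, mul_le_one₀ ht.2 hl0 hl1⟩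
      refine ⟨?_, hδC u h3 h1.2 h4.le _ hs⟩
      rw [mem_closedBall, dist_eq_norm]
      have e1 : f u + (t * lam r ‖f u - y‖) • δ u - y = (f u - y) + (t * lam r ‖f u - y‖) • δ u := by
        abel
      rw [e1]
      refine (norm_add_le _ _).trans ?_
      rw [norm_smul, Real.norm_eq_abs, abs_of_nonneg hs.1]
      have h5 := hδr u h3
      have h6 : (t * lam r ‖f u - y‖) * ‖δ u‖ ≤ 1 * (r / 4) :=
        mul_le_mul hs.2 h5 (norm_nonneg _) zero_le_one
      linarith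
  let G : (V → ℝ) × ℝ → (V → ℝ) := fun p => if p.1 ∈ e '' D then e (mv p) else p.1
  have hG1 : ∀ p : (V → ℝ) × ℝ, p.1 ∈ e '' D → G p = e (mv p) := fun p hp => if_pos hp
  have hG2 : ∀ p : (V → ℝ) × ℝ, p.1 ∉ e '' D → G p = p.1 := fun p hp => if_neg hp
  have hXc : IsClosed (realization Γ) := (realization_compact Γ).isClosed
  -- outside of the open part the map is the identity
  have hGO : ∀ p : (V → ℝ) × ℝ, p.1 ∈ realization Γ \ O → G p = p.1 := by
    intro p hp
    by_cases h : p.1 ∈ e '' D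
    · rw [hG1 p h]
      obtain ⟨h1, h2, h3⟩ := hfQ _ h
      have h4 : r ≤ ‖f p.1 - y‖ := by
        by_contra hcon
        rw [not_le] at hcon
        apply hp.2
        rw [hOe _ hp.1]
        exact ⟨f p.1, ⟨by rw [mem_ball, dist_eq_norm]; exact hcon, h1.2⟩, h2⟩
      show e (f p.1 + (p.2 * lam r ‖f p.1 - y‖) • δ p.1) = p.1
      rw [lam_eq_zero r _ hr (by linarith), mul_zero, zero_smul, add_zero, h2]
    · exact hG2 p h
  have hcontG : ContinuousOn G (realization Γ ×ˢ Icc (0 : ℝ) 1) := by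
    have hcov : realization Γ ×ˢ Icc (0 : ℝ) 1 =
        ((e '' D) ×ˢ Icc (0 : ℝ) 1) ∪ ((realization Γ \ O) ×ˢ Icc (0 : ℝ) 1) := by
      rw [← union_prod]
      congr 1
      ext u
      constructor
      · intro hu
        by_cases h : u ∈ O
        · left
          obtain ⟨w, hw, rfl⟩ := (hOe u hu).1 h
          exact ⟨w, ⟨ball_subset_closedBall hw.1, hw.2⟩, rfl⟩
        · exact Or.inr ⟨hu, h⟩
      · rintro (h | h)
        · exact (hfQ u h).2.2
        · exact h.1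
    rw [hcov]
    refine ContinuousOn.union_of_isClosed ?_ ?_ (hQc.isClosed.prod isClosed_Icc)
      ((hXc.sdiff hO).prod isClosed_Icc)
    · refine ContinuousOn.congr (f := fun p => e (mv p)) ?_ fun p hp => hG1 p hp.1
      exact he.comp hmvc.continuousOn fun p hp => hmvD p.1 hp.1 p.2 hp.2
    · refine ContinuousOn.congr (f := fun p => p.1) continuous_fst.continuousOn fun p hp => hGO p hp.1
  refine acy_of_map Γ n τ hne x hx hxp G hcontG ?_ ?_ ?_ ?_ k hk
  · intro p hp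
    by_cases h : p.1 ∈ e '' D
    · rw [hG1 p h]
      exact (hef _ (hmvD p.1 h p.2 hp.2)).1
    · rw [hG2 p h]
      exact hp.1
  · intro u hu
    by_cases h : u ∈ e '' D
    · rw [hG1 (u, 0) h]
      show e (f u + ((0 : ℝ) * lam r ‖f u - y‖) • δ u) = u
      rw [zero_mul, zero_smul, add_zero]
      exact (hfQ u h).2.1
    · exact hG2 (u, 0) h
  · intro σ hσ hτσ u hu t ht hGx
    by_cases h : u ∈ e '' D
    · rw [hG1 (u, t) h, ← hey] at hGx
      have h1 := congrArg f hGx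
      rw [(hef _ (hmvD u h t ht)).2, (hef y hyD).2] at h1
      refine c1 σ hσ hτσ u hu h (t * lam r ‖f u - y‖) ?_ h1
      exact ⟨mul_nonneg ht.1 (lam_nonneg _ _), mul_le_one₀ ht.2 (lam_nonneg _ _) (lam_le_one _ _)⟩
    · rw [hG2 (u, t) h] at hGx
      apply h
      have hGx' : u = x := hGx
      rw [hGx', ← hey]
      exact mem_image_of_mem e hyD
  · intro σ hσ hc u hu hGx
    by_cases h : u ∈ e '' D
    · rw [hG1 (u, 1) h, ← hey] at hGx
      have h1 := congrArg f hGx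
      rw [(hef _ (hmvD u h 1 ⟨zero_le_one, le_rfl⟩)).2, (hef y hyD).2] at h1
      refine c2 σ hσ hc u hu h ?_
      have h2 : f u + ((1 : ℝ) * lam r ‖f u - y‖) • δ u = y := h1
      rw [one_mul] at h2
      exact h2
    · rw [hG2 (u, 1) h] at hGx
      apply h
      have hGx' : u = x := hGx
      rw [hGx', ← hey]
      exact mem_image_of_mem e hyD

/-- Interior points of a chart. -/
lemma acy_interior (Γ : Cx V) (hM : 1 ≤ M) (τ : Finset V) (hne : τ.Nonempty) (x : V → ℝ)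
    (hx : x ∈ cell τ) (hxp : ∀ v ∈ τ, 0 < x v)
    (C : Set (EuclideanSpace ℝ (Fin M))) (hC : IsClosed C) (y : EuclideanSpace ℝ (Fin M))
    (r : ℝ) (f : (V → ℝ) → EuclideanSpace ℝ (Fin M)) (e : EuclideanSpace ℝ (Fin M) → (V → ℝ))
    (O : Set (V → ℝ)) (hr : 0 < r) (hball : closedBall y r ⊆ C) (hf : Continuous f)
    (he : ContinuousOn e (closedBall y r ∩ C))
    (hef : ∀ w ∈ closedBall y r ∩ C, e w ∈ realization Γ ∧ f (e w) = w)
    (hey : e y = x) (hO : IsOpen O)
    (hOe : ∀ u ∈ realization Γ, u ∈ O ↔ ∃ w ∈ ball y r ∩ C, e w = u)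
    (k : ℕ) (hk : k ≤ M) : Acy Γ ℤ τ k := by
  classical
  have hyD : y ∈ closedBall y r ∩ C := ⟨mem_closedBall_self hr.le, hball (mem_closedBall_self hr.le)⟩
  have hDc : IsCompact (closedBall y r ∩ C) := (isCompact_closedBall _ _).inter_right hC
  have hQc : IsCompact (e '' (closedBall y r ∩ C)) := hDc.image_of_continuousOn he
  -- the faces that do not contain `τ`
  let A : Set (V → ℝ) := ⋃ σ ∈ Γ.faces.filter (fun σ => ¬ τ ⊆ σ), cell σ
  have hA : IsCompact A := (Γ.faces.filter (fun σ => ¬ τ ⊆ σ)).isCompact_biUnion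
    fun σ _ => cell_compact σ
  have hAQ : IsCompact (A ∩ e '' (closedBall y r ∩ C)) := hA.inter hQc
  have hfA : IsClosed (f '' (A ∩ e '' (closedBall y r ∩ C))) := (hAQ.image hf).isClosed
  have hyA : y ∉ f '' (A ∩ e '' (closedBall y r ∩ C)) := by
    rintro ⟨u, ⟨hu, ⟨w, hw, rfl⟩⟩, hux⟩
    rw [(hef w hw).2] at hux
    subst hux
    rw [hey] at hu
    obtain ⟨σ, hσ, hus⟩ := Set.mem_iUnion₂.1 hu
    have h2 := (Finset.mem_filter.1 hσ).2
    apply h2
    intro v hv
    by_contra h3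
    have h4 := hus.2.2 v h3
    exact absurd h4 (ne_of_gt (hxp v hv))
  obtain ⟨ε0, hε0, hball0⟩ := Metric.isOpen_iff.1 hfA.isOpen_compl y hyA
  let ε : ℝ := min ε0 (r / 4)
  have hε : 0 < ε := lt_min hε0 (by positivity)
  have hεε0 : ε ≤ ε0 := min_le_left _ _
  have hεr : ε ≤ r / 4 := min_le_right _ _
  obtain ⟨P, hP, hPf, _⟩ := Continuous.exists_contDiff_approx (f := f) (ε := fun _ => ε / 4) 1 hf
    continuous_const (fun _ => by positivity)
  obtain ⟨y', hy', hyy⟩ := (image_dense Γ M hM P hP).exists_dist_lt y (ε := ε / 4) (by positivity)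
  let δ : (V → ℝ) → EuclideanSpace ℝ (Fin M) := fun u => P u + (y - y') - f u
  have hδc : Continuous δ := (hP.continuous.add continuous_const).sub hf
  have hδε : ∀ u, ‖δ u‖ < ε := by
    intro u
    have h3 : δ u = (P u - f u) + (y - y') := by
      show P u + (y - y') - f u = _
      abel
    rw [h3]
    have h4 := norm_add_le (P u - f u) (y - y')
    have h5 := hPf u
    rw [dist_eq_norm] at h5 hyy
    linarith
  refine acy_push Γ M τ hne x hx hxp C hC y hyD.2 r f e O hr hf he hef hey hO hOe δ hδc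
    (fun u _ => ((hδε u).le.trans hεr)) ?_ ?_ ?_ k hk
  · intro u hu _ h2 s hs
    apply hball
    rw [mem_closedBall, dist_eq_norm]
    have e1 : f u + s • δ u - y = (f u - y) + s • δ u := by abel
    rw [e1]
    refine (norm_add_le _ _).trans ?_
    rw [norm_smul, Real.norm_eq_abs, abs_of_nonneg hs.1]
    have h6 : s * ‖δ u‖ ≤ 1 * (r / 4) :=
      mul_le_mul hs.2 ((hδε u).le.trans hεr) (norm_nonneg _) zero_le_one
    linarith
  · intro σ hσ hτσ u hu huQ s hs h
    have huA : u ∈ A := Set.mem_biUnion (Finset.mem_coe.2 (Finset.mem_filter.2 ⟨hσ, hτσ⟩)) hu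
    have h2 : f u ∈ ball y ε0 := by
      rw [mem_ball, dist_eq_norm]
      have h3 : f u - y = -(s • δ u) := by
        rw [← h]; abel
      rw [h3, norm_neg, norm_smul, Real.norm_eq_abs, abs_of_nonneg hs.1]
      have h4 := hδε u
      have h5 := mul_le_mul_of_nonneg_right hs.2 (norm_nonneg (δ u))
      linarith
    exact hball0 h2 ⟨u, ⟨huA, huQ⟩, rfl⟩
  · intro σ hσ hc u hu huQ h
    have hl0 := lam_nonneg r ‖f u - y‖
    have hl1 := lam_le_one r ‖f u - y‖
    have h1 : ‖f u - y‖ ≤ r / 4 := by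
      have h3 : f u - y = -(lam r ‖f u - y‖ • δ u) := by
        calc f u - y = (f u + lam r ‖f u - y‖ • δ u - y) - lam r ‖f u - y‖ • δ u := by abel
          _ = -(lam r ‖f u - y‖ • δ u) := by rw [h, sub_self, zero_sub]
      rw [h3, norm_neg, norm_smul, Real.norm_eq_abs, abs_of_nonneg hl0]
      have h4 := hδε u
      have h5 := mul_le_mul_of_nonneg_right hl1 (norm_nonneg (δ u))
      linarith
    rw [lam_eq_one r _ hr (by linarith), one_smul] at h
    apply hy'
    refine ⟨u, Set.mem_biUnion (Finset.mem_coe.2 (Finset.mem_filter.2 ⟨hσ, hc⟩)) hu, ?_⟩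
    have h5 : P u = (f u + (P u + (y - y') - f u)) - y + y' := by abel
    have h6 : f u + (P u + (y - y') - f u) = y := h
    rw [h5, h6]; abel

/-- Boundary points of a chart in a half-space. -/
lemma acy_boundary (Γ : Cx V) (i0 : Fin M) (τ : Finset V) (hne : τ.Nonempty) (x : V → ℝ)
    (hx : x ∈ cell τ) (hxp : ∀ v ∈ τ, 0 < x v)
    (y : EuclideanSpace ℝ (Fin M)) (hy0 : y i0 = 0)
    (r : ℝ) (f : (V → ℝ) → EuclideanSpace ℝ (Fin M)) (e : EuclideanSpace ℝ (Fin M) → (V → ℝ))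
    (O : Set (V → ℝ)) (hr : 0 < r) (hf : Continuous f)
    (he : ContinuousOn e (closedBall y r ∩ {w | 0 ≤ w i0}))
    (hef : ∀ w ∈ closedBall y r ∩ {w | 0 ≤ w i0}, e w ∈ realization Γ ∧ f (e w) = w)
    (hey : e y = x) (hO : IsOpen O)
    (hOe : ∀ u ∈ realization Γ, u ∈ O ↔ ∃ w ∈ ball y r ∩ {w | 0 ≤ w i0}, e w = u)
    (k : ℕ) : Acy Γ ℤ τ k := by
  classical
  have hC : IsClosed {w : EuclideanSpace ℝ (Fin M) | 0 ≤ w i0} :=
    isClosed_le continuous_const (by fun_prop)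
  let b : EuclideanSpace ℝ (Fin M) := EuclideanSpace.single i0 (r / 4)
  have hb : ‖b‖ = r / 4 := by
    show ‖EuclideanSpace.single i0 (r / 4)‖ = r / 4
    rw [EuclideanSpace.norm_single, Real.norm_eq_abs, abs_of_pos (by positivity)]
  have hb0 : b i0 = r / 4 := by
    show (EuclideanSpace.single i0 (r / 4) : EuclideanSpace ℝ (Fin M)) i0 = r / 4
    simp
  have hcoord : ∀ (w : EuclideanSpace ℝ (Fin M)) (s : ℝ), (w + s • b) i0 = w i0 + s * (r / 4) := by
    intro w s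
    rw [PiLp.add_apply, PiLp.smul_apply, hb0, smul_eq_mul]
  have hfC : ∀ u ∈ e '' (closedBall y r ∩ {w | 0 ≤ w i0}), 0 ≤ f u i0 := by
    rintro _ ⟨w, hw, rfl⟩
    rw [(hef w hw).2]
    exact hw.2
  -- nothing is moved to `y` except for `y` itself, which is not moved
  have key : ∀ u ∈ e '' (closedBall y r ∩ {w | 0 ≤ w i0}), ∀ s : ℝ, 0 ≤ s → f u + s • b = y →
      s = 0 ∧ f u = y := by
    intro u hu s hs h
    have h1 := hcoord (f u) s
    rw [h, hy0] at h1
    have h2 := hfC u hu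
    have h3 : 0 ≤ s * (r / 4) := mul_nonneg hs (by positivity)
    have h4 : s * (r / 4) = 0 := by linarith
    have h5 : s = 0 := by
      rcases mul_eq_zero.1 h4 with h5 | h5
      · exact h5
      · exfalso; linarith
    refine ⟨h5, ?_⟩
    rw [h5, zero_smul, add_zero] at h
    exact h
  refine acy_push Γ k τ hne x hx hxp {w | 0 ≤ w i0} hC y (by
      show (0 : ℝ) ≤ y i0
      rw [hy0]) r f e O hr hf he hef hey hO hOe (fun _ => b)
    continuous_const (fun u _ => hb.le) ?_ ?_ ?_ k le_rfl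
  · intro u _ h1 _ s hs
    show (0 : ℝ) ≤ (f u + s • b) i0
    rw [hcoord]
    have h2 : (0 : ℝ) ≤ f u i0 := h1
    have h3 : 0 ≤ s * (r / 4) := mul_nonneg hs.1 (by positivity)
    linarith
  · intro σ hσ hτσ u hu huQ s hs h
    obtain ⟨_, h2⟩ := key u huQ s hs.1 h
    obtain ⟨w, hw, rfl⟩ := huQ
    rw [(hef w hw).2] at h2
    subst h2
    rw [hey] at hu
    apply hτσ
    intro v hv
    by_contra h3
    exact absurd (hu.2.2 v h3) (ne_of_gt (hxp v hv))
  · intro σ hσ _ u hu huQ h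
    obtain ⟨h1, h2⟩ := key u huQ _ (lam_nonneg _ _) h
    rw [h2, sub_self, norm_zero, lam_eq_one r 0 hr (by positivity)] at h1
    exact one_ne_zero h1

/-- Charts in Euclidean space. -/
lemma acy_chartE (Γ : Cx V) (ψ : OpenPartialHomeomorph (realization Γ) (EuclideanSpace ℝ (Fin M)))
    (τ : Finset V) (hne : τ.Nonempty) (x : realization Γ) (hxs : x ∈ ψ.source)
    (hx : x.1 ∈ cell τ) (hxp : ∀ v ∈ τ, 0 < x.1 v) (k : ℕ) (hk : k ≤ M) : Acy Γ ℤ τ k := by
  rcases Nat.eq_zero_or_pos M with hM | hM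
  · refine acy_trivial Γ τ k fun σ _ h1 h2 => ?_
    have h3 := Finset.card_le_card h1
    have h4 := Finset.card_pos.2 hne
    omega
  · obtain ⟨r, f, e, O, hr, _, hf, he, hef, hey, hO, hOe⟩ := chart_data Γ id IsClosedEmbedding.id ψ x
      hxs 1 one_pos
    exact acy_interior Γ hM τ hne x.1 hx hxp (range id) (by rw [range_id]; exact isClosed_univ) _ r f
      e O hr (by rw [range_id]; exact subset_univ _) hf he hef hey hO hOe k hk

/-- Charts in a half-space. -/
lemma acy_chartH (m : ℕ) (Γ : Cx V)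
    (ψ : OpenPartialHomeomorph (realization Γ) (EuclideanHalfSpace (m + 1)))
    (τ : Finset V) (hne : τ.Nonempty) (x : realization Γ) (hxs : x ∈ ψ.source)
    (hx : x.1 ∈ cell τ) (hxp : ∀ v ∈ τ, 0 < x.1 v) (k : ℕ) (hk : k ≤ m + 1) : Acy Γ ℤ τ k := by
  have hC : IsClosed {w : EuclideanSpace ℝ (Fin (m + 1)) | 0 ≤ w 0} :=
    isClosed_le continuous_const (by fun_prop)
  have hι : IsClosedEmbedding (Subtype.val : EuclideanHalfSpace (m + 1) → EuclideanSpace ℝ (Fin (m + 1))) :=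
    hC.isClosedEmbedding_subtypeVal
  have hr0 : range (Subtype.val : EuclideanHalfSpace (m + 1) → EuclideanSpace ℝ (Fin (m + 1))) =
      {w | 0 ≤ w 0} := Subtype.range_val
  rcases (ψ x).2.lt_or_eq with h | h
  · -- an interior point
    obtain ⟨ε, hε, hball⟩ := Metric.isOpen_iff.1
      (isOpen_lt continuous_const (by fun_prop) : IsOpen {w : EuclideanSpace ℝ (Fin (m + 1)) | 0 < w 0})
      (ψ x).1 h
    obtain ⟨r, f, e, O, hr, hrε, hf, he, hef, hey, hO, hOe⟩ := chart_data Γ Subtype.val hι ψ x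
      hxs (ε / 2) (by positivity)
    rw [hr0] at he hef hOe
    refine acy_interior Γ (by omega) τ hne x.1 hx hxp _ hC _ r f
      e O hr ?_ hf he hef hey hO hOe k hk
    intro w hw
    have h1 : w ∈ ball (ψ x).1 ε := closedBall_subset_ball (by linarith) hw
    have h2 : 0 < w 0 := hball h1
    exact h2.le
  · obtain ⟨r, f, e, O, hr, hrε, hf, he, hef, hey, hO, hOe⟩ := chart_data Γ Subtype.val hι ψ x
      hxs 1 one_pos
    rw [hr0] at he hef hOe
    exact acy_boundary Γ 0 τ hne x.1 hx hxp _ h.symm r f e O hr hf he hef hey hO hOe k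

end Pool.Agent.J6H34.UBC
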