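import Pool.Agent.J6H34.UBC.Alg
import Pool.Agent.J6H34.UBC.Topo
import Pool.Agent.J6H34.UBC.Dim

set_option autoImplicit false
set_option linter.unusedSectionVars false

/-!
# Geometric simplicial complexes
-/

namespace Pool.Agent.J6H34.UBC

open Pool.Agent.Helper611.ZBase Set Topology

section abstract
variable {V : Type} [Fintype V] [LinearOrder V] {M : ℕ}

/-- The barycentre of a face. -/
noncomputable def bary (τ : Finset V) (v : V) : ℝ := if v ∈ τ then (τ.card : ℝ)⁻¹ else 0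

lemma bary_pos (τ : Finset V) (v : V) (hv : v ∈ τ) : 0 < bary τ v := by
  unfold bary
  rw [if_pos hv]
  have : 0 < τ.card := Finset.card_pos.2 ⟨v, hv⟩
  positivity

lemma bary_mem (τ : Finset V) (hne : τ.Nonempty) : bary τ ∈ cell τ := by
  have hc : (0 : ℝ) < τ.card := by exact_mod_cast Finset.card_pos.2 hne
  refine ⟨fun v => ?_, ?_, fun v hv => if_neg hv⟩
  · by_cases hv : v ∈ τ
    · exact (bary_pos τ v hv).le
    · exact (if_neg hv : bary τ v = 0).ge
  · have h1 : ∑ v ∈ τ, bary τ v = 1 := by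
      have : ∑ v ∈ τ, bary τ v = ∑ v ∈ τ, (τ.card : ℝ)⁻¹ := Finset.sum_congr rfl fun v hv => if_pos hv
      rw [this, Finset.sum_const, nsmul_eq_mul, mul_inv_cancel₀ (ne_of_gt hc)]
    rw [← h1]
    exact (Finset.sum_subset (Finset.subset_univ _) fun w _ hw => if_neg hw).symm

/-- Complexes whose realization is charted on a Euclidean space. -/
lemma acy_of_chartsE (Γ : Cx V) (m : ℕ)
    (hch : ∀ x : realization Γ, ∃ ψ : OpenPartialHomeomorph (realization Γ) (EuclideanSpace ℝ (Fin m)),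
      x ∈ ψ.source) (σ0 : Finset V) (hσ0 : σ0 ∈ Γ.faces) (hne0 : σ0.Nonempty)
    (τ : Finset V) (i : ℕ) (hτ : τ.Nonempty) (hi : i < σ0.card) : Acy Γ ℤ τ i := by
  by_cases hτf : τ ∈ Γ.faces
  · obtain ⟨ψ0, hψ0⟩ := hch ⟨bary σ0, cell_sub Γ σ0 hσ0 (bary_mem σ0 hne0)⟩
    have hpos := Finset.card_pos.2 hne0
    have hD := dim_le Γ σ0 hσ0 (σ0.card - 1) (by omega) id continuous_id Function.injective_id
      ⟨bary σ0, _⟩ (bary_mem σ0 hne0) (fun v hv => bary_pos σ0 v hv) ψ0 hψ0
    obtain ⟨ψ, hψ⟩ := hch ⟨bary τ, cell_sub Γ τ hτf (bary_mem τ hτ)⟩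
    exact acy_chartE Γ ψ τ hτ ⟨bary τ, _⟩ hψ (bary_mem τ hτ) (fun v hv => bary_pos τ v hv) i (by omega)
  · exact acy_trivial Γ τ i fun G hG h1 _ => hτf (Γ.down G hG _ h1)

/-- Complexes whose realization is charted on a half-space. -/
lemma acy_of_chartsH (Γ : Cx V) (m : ℕ)
    (hch : ∀ x : realization Γ,
      ∃ ψ : OpenPartialHomeomorph (realization Γ) (EuclideanHalfSpace (m + 1)), x ∈ ψ.source)
    (σ0 : Finset V) (hσ0 : σ0 ∈ Γ.faces) (hne0 : σ0.Nonempty)
    (τ : Finset V) (i : ℕ) (hτ : τ.Nonempty) (hi : i < σ0.card) : Acy Γ ℤ τ i := by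
  by_cases hτf : τ ∈ Γ.faces
  · obtain ⟨ψ0, hψ0⟩ := hch ⟨bary σ0, cell_sub Γ σ0 hσ0 (bary_mem σ0 hne0)⟩
    have hpos := Finset.card_pos.2 hne0
    have hD := dim_le Γ σ0 hσ0 (σ0.card - 1) (by omega)
      (Subtype.val : EuclideanHalfSpace (m + 1) → EuclideanSpace ℝ (Fin (m + 1)))
      continuous_subtype_val Subtype.val_injective
      ⟨bary σ0, _⟩ (bary_mem σ0 hne0) (fun v hv => bary_pos σ0 v hv) ψ0 hψ0
    obtain ⟨ψ, hψ⟩ := hch ⟨bary τ, cell_sub Γ τ hτf (bary_mem τ hτ)⟩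
    exact acy_chartH m Γ ψ τ hτ ⟨bary τ, _⟩ hψ (bary_mem τ hτ) (fun v hv => bary_pos τ v hv) i (by omega)
  · exact acy_trivial Γ τ i fun G hG h1 _ => hτf (Γ.down G hG _ h1)

end abstract

section geometric
variable {N n : ℕ} (K : Geometry.SimplicialComplex ℝ (EuclideanSpace ℝ (Fin N)))
  (pt : Fin n ↪ EuclideanSpace ℝ (Fin N))

open Classical in
/-- The abstract complex of a geometric complex. -/
noncomputable def abs : Cx (Fin n) where
  faces := Finset.univ.filter fun σ => σ = ∅ ∨ σ.map pt ∈ K.faces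
  empty_mem := Finset.mem_filter.2 ⟨Finset.mem_univ _, Or.inl rfl⟩
  down := by
    intro σ hσ τ hτ
    have h1 := (Finset.mem_filter.1 hσ).2
    refine Finset.mem_filter.2 ⟨Finset.mem_univ _, ?_⟩
    rcases Finset.eq_empty_or_nonempty τ with h2 | h2
    · exact Or.inl h2
    · right
      rcases h1 with h1 | h1
      · rw [h1, Finset.subset_empty] at hτ
        exact absurd hτ h2.ne_empty
      · exact K.down_closed h1 (Finset.map_subset_map.2 hτ) (Finset.map_nonempty.2 h2)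

lemma mem_abs (σ : Finset (Fin n)) : σ ∈ (abs K pt).faces ↔ σ = ∅ ∨ σ.map pt ∈ K.faces := by
  classical
  unfold abs
  simp

/-- The point with given barycentric coordinates. -/
noncomputable def val (x : Fin n → ℝ) : EuclideanSpace ℝ (Fin N) := ∑ v, x v • pt v

lemma val_cont : Continuous (val pt) := by
  unfold val
  fun_prop

lemma cell_nonempty' (σ : Finset (Fin n)) (x : Fin n → ℝ) (hx : x ∈ cell σ) : σ.Nonempty := by
  by_contra h
  rw [Finset.not_nonempty_iff_eq_empty] at h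
  have h1 : ∑ v, x v = 0 := Finset.sum_eq_zero fun v _ => hx.2.2 v (by simp [h])
  rw [hx.2.1] at h1
  exact one_ne_zero h1

lemma val_mem (σ : Finset (Fin n)) (x : Fin n → ℝ) (hx : x ∈ cell σ) :
    val pt x ∈ convexHull ℝ ((σ.map pt : Finset _) : Set (EuclideanSpace ℝ (Fin N))) := by
  have e1 : val pt x = ∑ v ∈ σ, x v • pt v := by
    unfold val
    exact (Finset.sum_subset (Finset.subset_univ _) fun v _ hv => by rw [hx.2.2 v hv, zero_smul]).symm
  have e2 : ∑ v ∈ σ, x v = 1 := by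
    rw [← hx.2.1]
    exact Finset.sum_subset (Finset.subset_univ _) fun v _ hv => hx.2.2 v hv
  rw [e1]
  refine (convex_convexHull ℝ _).sum_mem (fun v _ => hx.1 v) e2 fun v hv => ?_
  exact subset_convexHull ℝ _ (Finset.mem_coe.2 (Finset.mem_map_of_mem pt hv))

lemma exists_cell (σ : Finset (Fin n)) (z : EuclideanSpace ℝ (Fin N))
    (hz : z ∈ convexHull ℝ ((σ.map pt : Finset _) : Set (EuclideanSpace ℝ (Fin N)))) :
    ∃ x ∈ cell σ, val pt x = z := by
  classical
  rw [Finset.mem_convexHull] at hz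
  obtain ⟨w, hw0, hw1, hw⟩ := hz
  rw [Finset.centerMass_eq_of_sum_1 _ _ hw1] at hw
  rw [Finset.sum_map] at hw1 hw
  refine ⟨fun v => if v ∈ σ then w (pt v) else 0, ⟨fun v => ?_, ?_, fun v hv => if_neg hv⟩, ?_⟩
  · by_cases hv : v ∈ σ
    · simp only [if_pos hv]
      exact hw0 _ (Finset.mem_map_of_mem pt hv)
    · simp only [if_neg hv]
      exact le_rfl
  · rw [Finset.sum_ite_mem, Finset.univ_inter, hw1]
  · unfold val
    rw [← hw]
    simp only [ite_smul, zero_smul]
    rw [Finset.sum_ite_mem, Finset.univ_inter]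
    rfl

lemma indep (σ : Finset (Fin n)) (hσ : σ.map pt ∈ K.faces) (c : Fin n → ℝ) (hc : ∀ v, v ∉ σ → c v = 0)
    (h1 : ∑ v, c v = 0) (h2 : ∑ v, c v • pt v = 0) : c = 0 := by
  classical
  have h3 := K.indep hσ
  let f : ↥σ ↪ ↥(σ.map pt) := ⟨fun v => ⟨pt v.1, Finset.mem_map_of_mem pt v.2⟩, by
    intro a b hab
    exact Subtype.ext (pt.injective (congrArg Subtype.val hab))⟩
  have h4 := h3.comp_embedding f
  rw [affineIndependent_iff] at h4
  have h5 := h4 Finset.univ (fun v : ↥σ => c v.1)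
    (by
      rw [Finset.sum_coe_sort σ c, ← h1]
      exact Finset.sum_subset (Finset.subset_univ _) fun v _ hv => hc v hv)
    (by
      have e : ∑ v : ↥σ, c v.1 • (Subtype.val ∘ f) v = ∑ v ∈ σ, c v • pt v :=
        Finset.sum_coe_sort σ (fun v => c v • pt v)
      rw [e, ← h2]
      exact Finset.sum_subset (Finset.subset_univ _) fun v _ hv => by rw [hc v hv, zero_smul])
  funext v
  by_cases hv : v ∈ σ
  · exact h5 ⟨v, hv⟩ (Finset.mem_univ _)
  · exact hc v hv

lemma val_inj (x x' : Fin n → ℝ) (hx : x ∈ realization (abs K pt)) (hx' : x' ∈ realization (abs K pt))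
    (h : val pt x = val pt x') : x = x' := by
  classical
  obtain ⟨a1, a2, σ, hσ, a3⟩ := hx
  obtain ⟨b1, b2, σ', hσ', b3⟩ := hx'
  have hxc : x ∈ cell σ := ⟨a1, a2, a3⟩
  have hxc' : x' ∈ cell σ' := ⟨b1, b2, b3⟩
  have hs := ((mem_abs K pt σ).1 hσ).resolve_left (cell_nonempty' σ x hxc).ne_empty
  have hs' := ((mem_abs K pt σ').1 hσ').resolve_left (cell_nonempty' σ' x' hxc').ne_empty
  have h1 := val_mem pt σ x hxc
  have h2 := val_mem pt σ' x' hxc'
  rw [← h] at h2
  have h3 := K.inter_subset_convexHull hs hs' ⟨h1, h2⟩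
  rw [← Finset.coe_inter, ← Finset.map_inter] at h3
  obtain ⟨x'', hx'', h4⟩ := exists_cell pt (σ ∩ σ') _ h3
  have e1 : x - x'' = 0 := by
    refine indep K pt σ hs _ ?_ ?_ ?_
    · intro v hv
      rw [Pi.sub_apply, hxc.2.2 v hv, hx''.2.2 v fun h5 => hv (Finset.mem_inter.1 h5).1, sub_zero]
    · simp only [Pi.sub_apply]
      rw [Finset.sum_sub_distrib, hxc.2.1, hx''.2.1, sub_self]
    · simp only [Pi.sub_apply, sub_smul]
      rw [Finset.sum_sub_distrib]
      exact sub_eq_zero.2 h4.symm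
  have e2 : x' - x'' = 0 := by
    refine indep K pt σ' hs' _ ?_ ?_ ?_
    · intro v hv
      rw [Pi.sub_apply, hxc'.2.2 v hv, hx''.2.2 v fun h5 => hv (Finset.mem_inter.1 h5).2, sub_zero]
    · simp only [Pi.sub_apply]
      rw [Finset.sum_sub_distrib, hxc'.2.1, hx''.2.1, sub_self]
    · simp only [Pi.sub_apply, sub_smul]
      rw [Finset.sum_sub_distrib]
      exact sub_eq_zero.2 (h.symm.trans h4.symm)
  rw [sub_eq_zero.1 e1, sub_eq_zero.1 e2]

lemma exists_preimage (hpt : ∀ z ∈ K.vertices, ∃ v, pt v = z) (s : Finset (EuclideanSpace ℝ (Fin N)))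
    (hs : s ∈ K.faces) : ∃ σ : Finset (Fin n), σ.map pt = s := by
  classical
  refine ⟨Finset.univ.filter fun v => pt v ∈ s, ?_⟩
  ext z
  simp only [Finset.mem_map, Finset.mem_filter, Finset.mem_univ, true_and]
  constructor
  · rintro ⟨v, hv, rfl⟩
    exact hv
  · intro hz
    obtain ⟨v, rfl⟩ := hpt z (K.down_closed hs (Finset.singleton_subset_iff.2 hz)
      (Finset.singleton_nonempty _))
    exact ⟨v, hz, rfl⟩

/-- The realizations are homeomorphic. -/
lemma exists_homeo (hpt : ∀ z ∈ K.vertices, ∃ v, pt v = z) :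
    Nonempty (realization (abs K pt) ≃ₜ K.space) := by
  have hmaps : ∀ x ∈ realization (abs K pt), val pt x ∈ K.space := by
    rintro x ⟨a1, a2, σ, hσ, a3⟩
    have hxc : x ∈ cell σ := ⟨a1, a2, a3⟩
    have hs := ((mem_abs K pt σ).1 hσ).resolve_left (cell_nonempty' σ x hxc).ne_empty
    exact K.convexHull_subset_space hs (val_mem pt σ x hxc)
  let Φ : realization (abs K pt) → K.space := fun x => ⟨val pt x.1, hmaps x.1 x.2⟩
  have hinj : Function.Injective Φ := by
    intro x x' h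
    exact Subtype.ext (val_inj K pt x.1 x'.1 x.2 x'.2 (congrArg Subtype.val h))
  have hsurj : Function.Surjective Φ := by
    rintro ⟨z, hz⟩
    obtain ⟨s, hs, hzs⟩ := Geometry.SimplicialComplex.mem_space_iff.1 hz
    obtain ⟨σ, rfl⟩ := exists_preimage K pt hpt s hs
    obtain ⟨x, hx, hxz⟩ := exists_cell pt σ z hzs
    exact ⟨⟨x, cell_sub _ σ ((mem_abs K pt σ).2 (Or.inr hs)) hx⟩, Subtype.ext hxz⟩
  have hcont : Continuous Φ := ((val_cont pt).comp continuous_subtype_val).subtype_mk _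
  have : CompactSpace (realization (abs K pt)) :=
    isCompact_iff_compactSpace.1 (realization_compact _)
  exact ⟨Continuous.homeoOfEquivCompactToT2 (f := Equiv.ofBijective Φ ⟨hinj, hsurj⟩) hcont⟩

/-- Face numbers. -/
lemma fn_abs (hpt : ∀ z ∈ K.vertices, ∃ v, pt v = z) (j : ℕ) (hj : j ≠ 0) :
    fn (abs K pt) j = (({σ | σ ∈ K.faces ∧ σ.card = j} :
      Set (Finset (EuclideanSpace ℝ (Fin N)))).ncard : ℤ) := by
  classical
  unfold fn
  have e : ({σ | σ ∈ K.faces ∧ σ.card = j} : Set (Finset (EuclideanSpace ℝ (Fin N)))) =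
      (fun σ : Finset (Fin n) => σ.map pt) ''
        (((abs K pt).faces.filter fun σ => σ.card = j : Finset (Finset (Fin n))) : Set (Finset (Fin n))) := by
    ext s
    constructor
    · rintro ⟨h1, h2⟩
      obtain ⟨σ, rfl⟩ := exists_preimage K pt hpt s h1
      rw [Finset.card_map] at h2
      exact ⟨σ, Finset.mem_coe.2 (Finset.mem_filter.2 ⟨(mem_abs K pt σ).2 (Or.inr h1), h2⟩), rfl⟩
    · rintro ⟨σ, hσ, rfl⟩
      obtain ⟨h1, h2⟩ := Finset.mem_filter.1 (Finset.mem_coe.1 hσ)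
      have h3 : σ ≠ ∅ := by
        rintro rfl
        exact hj (h2.symm.trans Finset.card_empty)
      exact ⟨((mem_abs K pt σ).1 h1).resolve_left h3, by
        show (σ.map pt).card = j
        rw [Finset.card_map, h2]⟩
  rw [e, Set.ncard_image_of_injective _ (Finset.map_injective pt), Set.ncard_coe_finset]

end geometric

/-- **Triangulated manifolds satisfy the upper bound inequalities.** -/
theorem ubc_geometric (N : ℕ) (K : Geometry.SimplicialComplex ℝ (EuclideanSpace ℝ (Fin N)))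
    (hfin : K.faces.Finite)
    (hman : ∃ m : ℕ, Nonempty (ChartedSpace (EuclideanSpace ℝ (Fin m)) K.space) ∨
      Nonempty (ChartedSpace (EuclideanHalfSpace (m + 1)) K.space))
    (d : ℕ) (hd : ∃ σ ∈ K.faces, σ.card = d) (i : ℕ) (hi : i ≤ d) :
    ∑ j ∈ Finset.range (i + 1),
      (-1 : ℤ) ^ (i - j) * ((Nat.choose (d - j) (i - j) : ℕ) : ℤ) *
        (if j = 0 then (1 : ℤ) else
          ((({σ | σ ∈ K.faces ∧ σ.card = j} :
            Set (Finset (EuclideanSpace ℝ (Fin N)))).ncard : ℕ) : ℤ)) ≤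
    ((Nat.choose (K.vertices.ncard - d + i - 1) i : ℕ) : ℤ) := by
  classical
  have hvfin : K.vertices.Finite := by
    rw [Geometry.SimplicialComplex.vertices_eq]
    exact hfin.biUnion fun s _ => s.finite_toSet
  let W := hvfin.toFinset
  let en : Fin W.card ≃ ↥W := W.equivFin.symm
  let pt : Fin W.card ↪ EuclideanSpace ℝ (Fin N) :=
    ⟨fun v => (en v).1, Subtype.val_injective.comp en.injective⟩
  have hpt : ∀ z ∈ K.vertices, ∃ v, pt v = z := by
    intro z hz
    refine ⟨en.symm ⟨z, hvfin.mem_toFinset.2 hz⟩, ?_⟩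
    show (en (en.symm ⟨z, hvfin.mem_toFinset.2 hz⟩)).1 = z
    rw [en.apply_symm_apply]
  have hcard : K.vertices.ncard = Fintype.card (Fin W.card) := by
    rw [Set.ncard_eq_toFinset_card _ hvfin, Fintype.card_fin]
  obtain ⟨s0, hs0, hs0d⟩ := hd
  obtain ⟨σ0, rfl⟩ := exists_preimage K pt hpt s0 hs0
  rw [Finset.card_map] at hs0d
  have hσ0 : σ0 ∈ (abs K pt).faces := (mem_abs K pt σ0).2 (Or.inr hs0)
  have hne0 : σ0.Nonempty := Finset.map_nonempty.1 (K.nonempty_of_mem_faces hs0)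
  obtain ⟨Φ⟩ := exists_homeo K pt hpt
  have hZ : ∀ (τ : Finset (Fin W.card)) (k : ℕ), τ.Nonempty → k < d → Acy (abs K pt) ℤ τ k := by
    intro τ k hτ hk
    rw [← hs0d] at hk
    obtain ⟨m, hm | hm⟩ := hman
    · letI := hm.some
      refine acy_of_chartsE (abs K pt) m (fun x => ?_) σ0 hσ0 hne0 τ k hτ hk
      refine ⟨Φ.toOpenPartialHomeomorph.trans (chartAt (EuclideanSpace ℝ (Fin m)) (Φ x)), ?_⟩
      simp
    · letI := hm.some
      refine acy_of_chartsH (abs K pt) m (fun x => ?_) σ0 hσ0 hne0 τ k hτ hk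
      refine ⟨Φ.toOpenPartialHomeomorph.trans (chartAt (EuclideanHalfSpace (m + 1)) (Φ x)), ?_⟩
      simp
  obtain ⟨v0, hv0⟩ := hne0
  have hmain := ubc (abs K pt) d v0
    ((abs K pt).down σ0 hσ0 _ (Finset.singleton_subset_iff.2 hv0))
    (by rw [← hs0d]; exact Finset.card_le_univ σ0) hZ i hi
  rw [hcard]
  refine le_trans (le_of_eq ?_) hmain
  unfold hn
  refine Finset.sum_congr rfl fun j _ => ?_
  rw [mul_assoc]
  congr 2
  by_cases hj : j = 0
  · rw [if_pos hj, hj]
    unfold fn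
    have : (abs K pt).faces.filter (fun σ => σ.card = 0) = {∅} := by
      ext F
      simp only [Finset.mem_filter, Finset.card_eq_zero, Finset.mem_singleton]
      constructor
      · exact fun h => h.2
      · rintro rfl
        exact ⟨(abs K pt).empty_mem, rfl⟩
    rw [this, Finset.card_singleton, Nat.cast_one]
  · rw [if_neg hj, fn_abs K pt hpt j hj]

end Pool.Agent.J6H34.UBC
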